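import Pool.Agent.Helper26.RP.Goals

/-!
# Packet JOI of MP_105b7b_pr: joining a left path and a right path
-/

set_option autoImplicit false

noncomputable section

namespace RP.PkJOI

open RP

lemma seg_mem {a b p : E} (h : p ∈ segment ℝ a b) :
    ∃ θ : ℝ, 0 ≤ θ ∧ θ ≤ 1 ∧ p.1 = (1 - θ) * a.1 + θ * b.1 ∧ p.2 = (1 - θ) * a.2 + θ * b.2 := by
  obtain ⟨x, y, hx, hy, hxy, rfl⟩ := h
  refine ⟨y, hy, by linarith, ?_, ?_⟩
  · have : x = 1 - y := by linarith
    simp [this]
  · have : x = 1 - y := by linarith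
    simp [this]

lemma mem_seg {a b p : E} (θ : ℝ) (h0 : 0 ≤ θ) (h1 : θ ≤ 1) (e1 : p.1 = (1 - θ) * a.1 + θ * b.1)
    (e2 : p.2 = (1 - θ) * a.2 + θ * b.2) : p ∈ segment ℝ a b := by
  refine ⟨1 - θ, θ, by linarith, h0, by ring, ?_⟩
  apply Prod.ext
  · simp [e1]
  · simp [e2]

lemma rf_mem {a b p : E} (h : p ∈ segment ℝ a b) : rf p ∈ segment ℝ (rf a) (rf b) := by
  obtain ⟨θ, h0, h1, e1, e2⟩ := seg_mem h
  refine mem_seg θ h0 h1 ?_ ?_
  · simp only [rf]; rw [e1]; ring
  · simp only [rf]; rw [e2]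

lemma rf_rf (p : E) : rf (rf p) = p := by
  simp [rf]

lemma NX_symm {a b c d : E} (h : NX a b c d) : NX c d a b := by
  rcases h with h | h
  · left
    rcases h with h | h | h | h
    · exact Or.inl h.symm
    · exact Or.inr (Or.inr (Or.inl h.symm))
    · exact Or.inr (Or.inl h.symm)
    · exact Or.inr (Or.inr (Or.inr h.symm))
  · right; exact h.symm

lemma NX_swap1 {a b c d : E} (h : NX a b c d) : NX b a c d := by
  rcases h with h | h
  · left
    rcases h with h | h | h | h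
    · exact Or.inr (Or.inr (Or.inl h))
    · exact Or.inr (Or.inr (Or.inr h))
    · exact Or.inl h
    · exact Or.inr (Or.inl h)
  · right; rw [segment_symm]; exact h

lemma NX_swap2 {a b c d : E} (h : NX a b c d) : NX a b d c := NX_symm (NX_swap1 (NX_symm h))

lemma NX_rf {a b c d : E} (h : NX (rf a) (rf b) (rf c) (rf d)) : NX a b c d := by
  have inj : ∀ {p q : E}, rf p = rf q → p = q := by
    intro p q hpq
    rw [← rf_rf p, ← rf_rf q, hpq]
  rcases h with h | h
  · left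
    rcases h with h | h | h | h
    · exact Or.inl (inj h)
    · exact Or.inr (Or.inl (inj h))
    · exact Or.inr (Or.inr (Or.inl (inj h)))
    · exact Or.inr (Or.inr (Or.inr (inj h)))
  · right
    rw [Set.disjoint_left] at h ⊢
    intro p hp hq
    exact h (rf_mem hp) (rf_mem hq)

lemma dis_of_lt {a b c d : E} (M : ℝ) (ha : a.1 ≤ M) (hb : b.1 ≤ M) (hc : M < c.1)
    (hd : M < d.1) : NX a b c d := by
  right
  rw [Set.disjoint_left]
  intro p hp hq
  obtain ⟨θ, h0, h1, e1, -⟩ := seg_mem hp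
  obtain ⟨φ, k0, k1, f1, -⟩ := seg_mem hq
  have i1 : p.1 ≤ M := by
    rw [e1]
    nlinarith [mul_nonneg h0 (sub_nonneg.mpr hb), mul_nonneg (sub_nonneg.mpr h1) (sub_nonneg.mpr ha)]
  have i2 : M < p.1 := by
    rw [f1]
    rcases eq_or_lt_of_le k0 with h | h
    · subst h; simpa using hc
    · nlinarith [mul_pos h (sub_pos.mpr hd), mul_nonneg (sub_nonneg.mpr k1) (sub_pos.mpr hc).le]
  linarith

/-- the two steep edges on different sides -/
lemma height {δ v : ℝ} {s t g' g : E} (hδ : 0 < δ) (hv : 4 * δ ≤ v) (hs1 : s.1 ≤ -(15 * δ))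
    (hs2 : -δ ≤ s.2) (ht1 : 15 * δ ≤ t.1) (ht2 : t.2 ≤ δ) (hg1 : |g'.1| ≤ δ) (hg2 : v - δ ≤ g'.2)
    (hk1 : |g.1| ≤ δ) (hk2 : g.2 ≤ -v + δ) : NX s g' t g := by
  right
  rw [Set.disjoint_left]
  intro p hp hq
  obtain ⟨θ, h0, h1, e1, e2⟩ := seg_mem hp
  obtain ⟨φ, k0, k1, f1, f2⟩ := seg_mem hq
  rw [abs_le] at hg1 hk1
  have a1 : (1 - θ) * s.1 ≤ (1 - θ) * (-(15 * δ)) := mul_le_mul_of_nonneg_left hs1 (by linarith)
  have a2 : θ * g'.1 ≤ θ * δ := mul_le_mul_of_nonneg_left hg1.2 h0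
  have a3 : (1 - φ) * (15 * δ) ≤ (1 - φ) * t.1 := mul_le_mul_of_nonneg_left ht1 (by linarith)
  have a4 : φ * (-δ) ≤ φ * g.1 := mul_le_mul_of_nonneg_left hk1.1 k0
  have b1 : (1 - θ) * (-δ) ≤ (1 - θ) * s.2 := mul_le_mul_of_nonneg_left hs2 (by linarith)
  have b2 : θ * (v - δ) ≤ θ * g'.2 := mul_le_mul_of_nonneg_left hg2 h0
  have b3 : (1 - φ) * t.2 ≤ (1 - φ) * δ := mul_le_mul_of_nonneg_left ht2 (by linarith)
  have b4 : φ * g.2 ≤ φ * (-v + δ) := mul_le_mul_of_nonneg_left hk2 k0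
  have c1 : θ * (4 * δ) ≤ θ * v := mul_le_mul_of_nonneg_left hv h0
  have c2 : φ * (4 * δ) ≤ φ * v := mul_le_mul_of_nonneg_left hv k0
  have d1 : θ * δ ≤ δ := mul_le_of_le_one_left hδ.le h1
  have d2 : φ * δ ≤ δ := mul_le_of_le_one_left hδ.le k1
  have p1 : p.1 ≤ -(15 * δ) + 16 * (θ * δ) := by rw [e1]; linarith
  have p2 : 15 * δ - 16 * (φ * δ) ≤ p.1 := by rw [f1]; linarith
  have p3 : -δ + θ * v ≤ p.2 := by rw [e2]; linarith
  have p4 : p.2 ≤ δ - φ * v := by rw [f2]; linarith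
  linarith

section side

variable {δ v σ D : ℝ} {a : ℕ} {u : Fin (a + 2) → E} {g' g : E}

/-- facts about one side -/
structure Side (δ v σ D : ℝ) (a : ℕ) (u : Fin (a + 2) → E) (g' g : E) : Prop where
  hδ : 0 < δ
  hv : 4 * δ ≤ v
  hσ : 0 ≤ σ
  hst : 18 * δ * σ < v - 2 * δ
  hD : 17 * δ < D
  ha : 1 ≤ a
  hu : u ∈ Blk (bx (-(16 * δ)) 0 δ) {p | Far δ σ D p} a
  hg' : g' ∈ bx 0 v δ
  hg : g ∈ bx 0 (-v) δ

lemma Side.inner (S : Side δ v σ D a u g' g) (i : Fin a) : (u i.succ.castSucc).1 ≤ -D :=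
  (S.hu.2.2.1 i).1

lemma Side.u0 (S : Side δ v σ D a u g' g) : -(17 * δ) ≤ (u 0).1 ∧ (u 0).1 ≤ -(15 * δ) ∧
    -δ ≤ (u 0).2 ∧ (u 0).2 ≤ δ := by
  obtain ⟨h1, h2⟩ := S.hu.1
  rw [abs_le] at h1 h2
  refine ⟨by linarith, by linarith, by linarith, by linarith⟩

lemma Side.ul (S : Side δ v σ D a u g' g) : -(17 * δ) ≤ (u (Fin.last (a + 1))).1 ∧
    (u (Fin.last (a + 1))).1 ≤ -(15 * δ) ∧
    -δ ≤ (u (Fin.last (a + 1))).2 ∧ (u (Fin.last (a + 1))).2 ≤ δ := by
  obtain ⟨h1, h2⟩ := S.hu.2.1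
  rw [abs_le] at h1 h2
  refine ⟨by linarith, by linarith, by linarith, by linarith⟩

lemma Side.all (S : Side δ v σ D a u g' g) (i : Fin (a + 2)) : (u i).1 ≤ -(15 * δ) := by
  have hδ := S.hδ
  have hD := S.hD
  refine Fin.cases ?_ (fun j => ?_) i
  · exact S.u0.2.1
  · refine Fin.lastCases ?_ (fun k => ?_) j
    · rw [Fin.succ_last]; exact S.ul.2.1
    · rw [Fin.succ_castSucc]
      have := S.inner k
      linarith

lemma Side.strands (hSTR : G_STR) (S : Side δ v σ D a u g' g) :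
    Disjoint (segment ℝ (u 0) g) (segment ℝ (u (Fin.last (a + 1))) g') ∧
    Disjoint (segment ℝ (u 0) g) (segment ℝ (u (Fin.last a).castSucc) (u (Fin.last (a + 1)))) ∧
    Disjoint (segment ℝ (u (Fin.last (a + 1))) g') (segment ℝ (u 1) (u 0)) := by
  have hδ := S.hδ
  have hv := S.hv
  have hσ := S.hσ
  have hD := S.hD
  have hst := S.hst
  obtain ⟨x1, x2, x3, x4⟩ := S.u0
  obtain ⟨y1, y2, y3, y4⟩ := S.ul
  obtain ⟨z1, z2⟩ := S.hg
  obtain ⟨w1, w2⟩ := S.hg'
  rw [abs_le] at z1 z2 w1 w2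
  obtain ⟨n, rfl⟩ : ∃ n, a = n + 1 := ⟨a - 1, by have := S.ha; omega⟩
  have e1 : (1 : Fin (n + 1 + 2)) = (0 : Fin (n + 1)).succ.castSucc := by
    apply Fin.ext; simp
  have e2 : (Fin.last (n + 1)).castSucc = (Fin.last n).succ.castSucc := by
    rw [Fin.succ_last]
  have f1 : Far δ σ D (u 1) := by rw [e1]; exact S.hu.2.2.1 0
  have f2 : Far δ σ D (u (Fin.last (n + 1)).castSucc) := by rw [e2]; exact S.hu.2.2.1 (Fin.last n)
  have k1 := f1.2 (u 0) S.hu.1
  have k2 := f2.2 (u (Fin.last (n + 1 + 1))) S.hu.2.1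
  have m1 : g.1 - (u 0).1 ≤ 18 * δ := by linarith
  have m2 : g'.1 - (u (Fin.last (n + 1 + 1))).1 ≤ 18 * δ := by linarith
  have m1' : σ * (g.1 - (u 0).1) ≤ σ * (18 * δ) := mul_le_mul_of_nonneg_left m1 hσ
  have m2' : σ * (g'.1 - (u (Fin.last (n + 1 + 1))).1) ≤ σ * (18 * δ) :=
    mul_le_mul_of_nonneg_left m2 hσ
  refine hSTR σ (u 1) (u 0) (u (Fin.last (n + 1)).castSucc) (u (Fin.last (n + 1 + 1))) g g' hσ
    ?_ ?_ k1 k2 ?_ ?_ ?_ ?_ S.hu.2.2.2.2
  · have := f1.1; linarith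
  · have := f2.1; linarith
  · linarith
  · linarith
  · nlinarith
  · nlinarith

/-- path edges against `M1` -/
lemma Side.L1 (hSTR : G_STR) (S : Side δ v σ D a u g' g) (i : Fin (a + 1)) :
    NX (u i.castSucc) (u i.succ) (u (Fin.last (a + 1))) g' := by
  have hδ := S.hδ
  have hD := S.hD
  obtain ⟨y1, y2, y3, y4⟩ := S.ul
  obtain ⟨w1, w2⟩ := S.hg'
  rw [abs_le] at w1
  obtain ⟨n, rfl⟩ : ∃ n, a = n + 1 := ⟨a - 1, by have := S.ha; omega⟩
  refine Fin.cases ?_ (fun j => ?_) i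
  · -- first edge
    right
    have h := (S.strands hSTR).2.2
    have e : (0 : Fin (n + 1 + 1)).succ = 1 := by apply Fin.ext; simp
    rw [e, segment_symm ℝ (u (Fin.castSucc 0)) (u 1)]
    exact h.symm
  · refine Fin.lastCases ?_ (fun k => ?_) j
    · -- last edge
      left
      right; right; left
      rw [Fin.succ_last, Fin.succ_last]
    · -- inner edge
      refine dis_of_lt (-D) ?_ ?_ (by linarith) (by linarith)
      · exact S.inner _
      · have e : (k.castSucc.succ : Fin (n + 1 + 1)).succ = (k.succ).succ.castSucc := by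
          apply Fin.ext; simp
        rw [e]
        exact S.inner _

/-- path edges against `M4` -/
lemma Side.L2 (hSTR : G_STR) (S : Side δ v σ D a u g' g) (i : Fin (a + 1)) :
    NX (u i.castSucc) (u i.succ) (u 0) g := by
  have hδ := S.hδ
  have hD := S.hD
  obtain ⟨y1, y2, y3, y4⟩ := S.u0
  obtain ⟨w1, w2⟩ := S.hg
  rw [abs_le] at w1
  obtain ⟨n, rfl⟩ : ∃ n, a = n + 1 := ⟨a - 1, by have := S.ha; omega⟩
  refine Fin.cases ?_ (fun j => ?_) i
  · -- first edge
    left; left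
    rfl
  · refine Fin.lastCases ?_ (fun k => ?_) j
    · -- last edge
      right
      have h := (S.strands hSTR).2.1
      rw [Fin.succ_last, Fin.succ_last]
      exact h.symm
    · -- inner edge
      refine dis_of_lt (-D) ?_ ?_ (by linarith) (by linarith)
      · exact S.inner _
      · have e : (k.castSucc.succ : Fin (n + 1 + 1)).succ = (k.succ).succ.castSucc := by
          apply Fin.ext; simp
        rw [e]
        exact S.inner _

/-- `M1` against `M4` -/
lemma Side.L3 (hSTR : G_STR) (S : Side δ v σ D a u g' g) :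
    NX (u (Fin.last (a + 1))) g' (u 0) g := Or.inr (S.strands hSTR).1.symm

end side

/-- the six types of edges -/
def Ty {a b : ℕ} (u : Fin (a + 2) → E) (w : Fin (b + 2) → E) (g' g p q : E) : Prop :=
  (∃ i : Fin (a + 1), p = u i.castSucc ∧ q = u i.succ) ∨
  (p = u (Fin.last (a + 1)) ∧ q = g') ∨ (p = g' ∧ q = w 0) ∨
  (∃ j : Fin (b + 1), p = w j.castSucc ∧ q = w j.succ) ∨
  (p = w (Fin.last (b + 1)) ∧ q = g) ∨ (p = g ∧ q = u 0)

lemma ty {a b : ℕ} (u : Fin (a + 2) → E) (w : Fin (b + 2) → E) (g' g : E) (k : J a b) :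
    Ty u w g' g ((Sum.elim (Sum.elim u w) ![g', g] : J a b → E) k)
      ((Sum.elim (Sum.elim u w) ![g', g] : J a b → E) (succJ a b k)) := by
  rcases k with (i | j) | k
  · by_cases h : i.val < a + 1
    · left
      refine ⟨⟨i.val, h⟩, ?_, ?_⟩
      · simp only [Sum.elim_inl]
        congr 1
      · simp only [succJ, dif_pos h, Sum.elim_inl]
        congr 1
    · right; left
      have hi : i = Fin.last (a + 1) := by
        apply Fin.ext
        have := i.isLt
        simp only [Fin.val_last]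
        omega
      refine ⟨?_, ?_⟩
      · simp only [Sum.elim_inl]; rw [hi]
      · simp only [succJ, dif_neg h, Sum.elim_inr, Matrix.cons_val_zero]
  · by_cases h : j.val < b + 1
    · right; right; right; left
      refine ⟨⟨j.val, h⟩, ?_, ?_⟩
      · simp only [Sum.elim_inl, Sum.elim_inr]
        congr 1
      · simp only [succJ, dif_pos h, Sum.elim_inl, Sum.elim_inr]
        congr 1
    · right; right; right; right; left
      have hj : j = Fin.last (b + 1) := by
        apply Fin.ext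
        have := j.isLt
        simp only [Fin.val_last]
        omega
      refine ⟨?_, ?_⟩
      · simp only [Sum.elim_inl, Sum.elim_inr]; rw [hj]
      · simp only [succJ, dif_neg h, Sum.elim_inr, Matrix.cons_val_one, Matrix.cons_val_fin_one]
  · fin_cases k
    · right; right; left
      refine ⟨?_, ?_⟩
      · simp
      · simp [succJ]
    · right; right; right; right; right
      refine ⟨?_, ?_⟩
      · simp
      · simp [succJ]

lemma NX_refl (p q : E) : NX p q p q := Or.inl (Or.inl rfl)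

/-- Packet JOI. -/
theorem joi : G_STR → G_JOI := by
  intro hSTR δ v σ D a b u w g' g hδ hv hσ hst hD ha hb hu hw hg' hg hGP
  refine ⟨hGP, ?_⟩
  have S : Side δ v σ D a u g' g := ⟨hδ, hv, hσ, hst, hD, ha, hu, hg', hg⟩
  have hrg' : rf g' ∈ bx 0 v δ := by
    obtain ⟨h1, h2⟩ := hg'
    refine ⟨?_, h2⟩
    simp only [rf, sub_zero, abs_neg] at h1 ⊢
    exact h1
  have hrg : rf g ∈ bx 0 (-v) δ := by
    obtain ⟨h1, h2⟩ := hg
    refine ⟨?_, h2⟩
    simp only [rf, sub_zero, abs_neg] at h1 ⊢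
    exact h1
  have R : Side δ v σ D b (fun i => rf (w i.rev)) (rf g') (rf g) :=
    ⟨hδ, hv, hσ, hst, hD, hb, hw, hrg', hrg⟩
  -- right side facts
  have c1 : ∀ j : Fin (b + 1), (j.rev.castSucc).rev = j.succ := by
    intro j; rw [Fin.rev_castSucc, Fin.rev_rev]
  have c2 : ∀ j : Fin (b + 1), (j.rev.succ).rev = j.castSucc := by
    intro j; rw [Fin.rev_succ, Fin.rev_rev]
  have c3 : (Fin.last (b + 1)).rev = 0 := Fin.rev_last _
  have c4 : (0 : Fin (b + 2)).rev = Fin.last (b + 1) := Fin.rev_zero _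
  have Ruu : ∀ i j : Fin (b + 1), NX (w i.castSucc) (w i.succ) (w j.castSucc) (w j.succ) := by
    intro i j
    have h := hw.2.2.2.1 i.rev j.rev
    simp only [c1, c2] at h
    exact NX_swap1 (NX_swap2 (NX_rf h))
  have R1 : ∀ j : Fin (b + 1), NX (w j.castSucc) (w j.succ) g' (w 0) := by
    intro j
    have h := R.L1 hSTR j.rev
    simp only [c1, c2, c3] at h
    exact NX_swap1 (NX_swap2 (NX_rf h))
  have R2 : ∀ j : Fin (b + 1), NX (w j.castSucc) (w j.succ) (w (Fin.last (b + 1))) g := by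
    intro j
    have h := R.L2 hSTR j.rev
    simp only [c1, c2, c4] at h
    exact NX_swap1 (NX_rf h)
  have R3 : NX g' (w 0) (w (Fin.last (b + 1))) g := by
    have h := R.L3 hSTR
    simp only [c3, c4] at h
    exact NX_swap1 (NX_rf h)
  have Luu : ∀ i j : Fin (a + 1), NX (u i.castSucc) (u i.succ) (u j.castSucc) (u j.succ) :=
    fun i j => hu.2.2.2.1 i j
  have L1 := S.L1 hSTR
  have L2 := S.L2 hSTR
  have L3 := S.L3 hSTR
  -- abscissas
  have uA : ∀ i, (u i).1 ≤ -(15 * δ) := S.all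
  have wA : ∀ i, 15 * δ ≤ (w i).1 := by
    intro i
    have := R.all i.rev
    simp only [Fin.rev_rev, rf] at this
    linarith
  have gA' : |g'.1| ≤ δ := by have := hg'.1; rwa [sub_zero] at this
  have gA : |g.1| ≤ δ := by have := hg.1; rwa [sub_zero] at this
  have gB' := abs_le.mp gA'
  have gB := abs_le.mp gA
  have gH' : v - δ ≤ g'.2 := by have := (abs_le.mp hg'.2).1; linarith
  have gH : g.2 ≤ -v + δ := by have := (abs_le.mp hg.2).2; linarith
  have UW : ∀ (i : Fin (a + 1)) (j : Fin (b + 1)),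
      NX (u i.castSucc) (u i.succ) (w j.castSucc) (w j.succ) := by
    intro i j
    have h1 := uA i.castSucc
    have h2 := uA i.succ
    have h3 := wA j.castSucc
    have h4 := wA j.succ
    exact dis_of_lt 0 (by linarith) (by linarith) (by linarith) (by linarith)
  have UM2 : ∀ i : Fin (a + 1), NX (u i.castSucc) (u i.succ) g' (w 0) := by
    intro i
    have h3 := wA 0
    exact dis_of_lt (-(15 * δ)) (uA _) (uA _) (by linarith) (by linarith)
  have UM3 : ∀ i : Fin (a + 1), NX (u i.castSucc) (u i.succ) (w (Fin.last (b + 1))) g := by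
    intro i
    have h3 := wA (Fin.last (b + 1))
    exact dis_of_lt (-(15 * δ)) (uA _) (uA _) (by linarith) (by linarith)
  have M1W : ∀ j : Fin (b + 1), NX (u (Fin.last (a + 1))) g' (w j.castSucc) (w j.succ) := by
    intro j
    have h1 := uA (Fin.last (a + 1))
    have h3 := wA j.castSucc
    have h4 := wA j.succ
    exact dis_of_lt δ (by linarith) (by linarith) (by linarith) (by linarith)
  have M4W : ∀ j : Fin (b + 1), NX g (u 0) (w j.castSucc) (w j.succ) := by
    intro j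
    have h1 := uA 0
    have h3 := wA j.castSucc
    have h4 := wA j.succ
    exact dis_of_lt δ (by linarith) (by linarith) (by linarith) (by linarith)
  have M13 : NX (u (Fin.last (a + 1))) g' (w (Fin.last (b + 1))) g := by
    have hs := S.ul
    have ht := R.u0
    simp only [c4, rf] at ht
    exact height hδ hv hs.2.1 hs.2.2.1 (wA _) ht.2.2.2 gA' gH' gA gH
  have M24 : NX g' (w 0) g (u 0) := by
    have hs := R.ul
    have ht := S.u0
    simp only [c3] at hs
    have h : NX (rf (w 0)) (rf g') (rf (u 0)) (rf g) := by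
      refine height hδ hv hs.2.1 hs.2.2.1 ?_ ?_ ?_ ?_ ?_ ?_
      · simp only [rf]; linarith
      · simp only [rf]; exact ht.2.2.2
      · simp only [rf, abs_neg]; exact gA'
      · simp only [rf]; exact gH'
      · simp only [rf, abs_neg]; exact gA
      · simp only [rf]; exact gH
    exact NX_swap1 (NX_swap2 (NX_rf h))
  have M12 : NX (u (Fin.last (a + 1))) g' g' (w 0) := Or.inl (Or.inr (Or.inr (Or.inl rfl)))
  have M34 : NX (w (Fin.last (b + 1))) g g (u 0) := Or.inl (Or.inr (Or.inr (Or.inl rfl)))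
  have M14 : NX (u (Fin.last (a + 1))) g' g (u 0) := NX_swap2 L3
  have UM4 : ∀ i : Fin (a + 1), NX (u i.castSucc) (u i.succ) g (u 0) := fun i => NX_swap2 (L2 i)
  intro k l
  rcases ty u w g' g k with ⟨i, h1, h2⟩ | ⟨h1, h2⟩ | ⟨h1, h2⟩ | ⟨i, h1, h2⟩ | ⟨h1, h2⟩ | ⟨h1, h2⟩ <;>
  rcases ty u w g' g l with ⟨j, k1, k2⟩ | ⟨k1, k2⟩ | ⟨k1, k2⟩ | ⟨j, k1, k2⟩ | ⟨k1, k2⟩ | ⟨k1, k2⟩ <;>
  rw [h1, h2, k1, k2]
  · exact Luu i j
  · exact L1 i
  · exact UM2 i
  · exact UW i j
  · exact UM3 i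
  · exact UM4 i
  · exact NX_symm (L1 j)
  · exact NX_refl _ _
  · exact M12
  · exact M1W j
  · exact M13
  · exact M14
  · exact NX_symm (UM2 j)
  · exact NX_symm M12
  · exact NX_refl _ _
  · exact NX_symm (R1 j)
  · exact R3
  · exact M24
  · exact NX_symm (UW j i)
  · exact NX_symm (M1W i)
  · exact R1 i
  · exact Ruu i j
  · exact R2 i
  · exact NX_symm (M4W i)
  · exact NX_symm (UM3 j)
  · exact NX_symm M13
  · exact NX_symm R3
  · exact NX_symm (R2 j)
  · exact NX_refl _ _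
  · exact M34
  · exact NX_symm (UM4 j)
  · exact NX_symm M14
  · exact NX_symm M24
  · exact M4W j
  · exact NX_symm M34
  · exact NX_refl _ _

end RP.PkJOI
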